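import Pool.Agent.Helper60.T3.GoalsI

/-!
PROJECT T3 (MP_a41896_nt), packet ELM (helper73): elimination by a dimension count.
-/

set_option autoImplicit false

noncomputable section

open MvPolynomial

namespace Pool.Agent.Helper73.T3.ELM

open Pool.Agent.Helper60.T3

variable {κ L : Type} [Field κ] [Field L] [Algebra κ L]

/-- polynomials in `w` of degree `≤ 1` -/
def A1 (κ : Type) {L : Type} [Field κ] [Field L] [Algebra κ L] (w : L) : Submodule κ L :=
  Submodule.span κ {1, w}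

theorem one_mem_A1 (w : L) : (1 : L) ∈ A1 κ w := Submodule.subset_span (by simp)

theorem self_mem_A1 (w : L) : w ∈ A1 κ w := Submodule.subset_span (by simp)

theorem pow_mem_A1 (w : L) (a M : ℕ) (h : a ≤ M) : w ^ a ∈ (A1 κ w) ^ M := by
  obtain ⟨b, rfl⟩ := Nat.exists_eq_add_of_le h
  rw [pow_add]
  have h1 : (1 : L) ∈ (A1 κ w) ^ b := by
    have := Submodule.pow_mem_pow (A1 κ w) (one_mem_A1 w) b
    rwa [one_pow] at this
  have h2 := Submodule.mul_mem_mul (Submodule.pow_mem_pow (A1 κ w) (self_mem_A1 w) a) h1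
  rwa [mul_one] at h2

theorem step (F W : Submodule κ L) (l z : L) (h0 : (1 : L) ∈ W) (h1 : ∀ w ∈ W, l * w ∈ F * W)
    (h2 : ∀ w ∈ W, l * z * w ∈ F * W) :
    ∀ (M : ℕ) (p : L), p ∈ (A1 κ z) ^ M → l ^ M * p ∈ F ^ M * W := by
  intro M
  induction M with
  | zero =>
    intro p hp
    rw [pow_zero] at hp ⊢
    rw [one_mul, pow_zero, one_mul]
    obtain ⟨c, rfl⟩ := Submodule.mem_one.1 hp
    rw [Algebra.algebraMap_eq_smul_one]
    exact W.smul_mem c h0
  | succ M ih =>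
    intro p hp
    rw [pow_succ] at hp
    have key : ∀ u ∈ F ^ M * W, ∀ q ∈ A1 κ z, u * (l * q) ∈ F ^ (M + 1) * W := by
      intro u hu q hq
      obtain ⟨a, b, rfl⟩ := Submodule.mem_span_pair.1 hq
      refine Submodule.mul_induction_on hu ?_ ?_
      · intro f hf w hw
        have h3 : f * w * (l * (a • 1 + b • z)) = f * (a • (l * w) + b • (l * z * w)) := by
          simp only [Algebra.smul_def]
          ring
        rw [h3, pow_succ, mul_assoc]
        exact Submodule.mul_mem_mul hf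
          (Submodule.add_mem _ (Submodule.smul_mem _ _ (h1 w hw)) (Submodule.smul_mem _ _ (h2 w hw)))
      · intro x y hx hy
        rw [add_mul]
        exact Submodule.add_mem _ hx hy
    refine Submodule.mul_induction_on hp ?_ ?_
    · intro m hm q hq
      have h4 : l ^ (M + 1) * (m * q) = l ^ M * m * (l * q) := by ring
      rw [h4]
      exact key _ (ih m hm) q hq
    · intro x y hx hy
      rw [mul_add]
      exact Submodule.add_mem _ hx hy

theorem core (F : Submodule κ L) (w : L) (N : ℕ) (c : ℕ → L) (hc : ∀ i, c i ∈ F)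
    (hne : ∃ i, i ≤ N ∧ c i ≠ 0) (hz : ∑ i ∈ Finset.range (N + 1), c i * w ^ i = 0) :
    ∃ (u : ℕ) (l : L), u ≤ N ∧ l ≠ 0 ∧ ∀ (M : ℕ) (p : L), p ∈ (A1 κ w) ^ M →
      l ^ M * p ∈ F ^ M * Submodule.span κ (Set.range fun i : Fin u => w ^ (i : ℕ)) := by
  classical
  obtain ⟨i0, hi0, hci0⟩ := hne
  obtain ⟨u, hu⟩ : ∃ u, u = Nat.findGreatest (fun i => c i ≠ 0) N := ⟨_, rfl⟩
  have hcu : c u ≠ 0 := by
    rw [hu]
    exact Nat.findGreatest_spec (P := fun i => c i ≠ 0) hi0 hci0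
  have huN : u ≤ N := by
    rw [hu]
    exact Nat.findGreatest_le N
  have hgr : ∀ i, u < i → i ≤ N → c i = 0 := by
    intro i h1 h2
    by_contra h3
    rw [hu] at h1
    exact Nat.findGreatest_is_greatest h1 h2 h3
  have hz' : ∑ i ∈ Finset.range (u + 1), c i * w ^ i = 0 := by
    rw [← hz]
    refine Finset.sum_subset (Finset.range_subset_range.2 (by omega)) ?_
    intro i hi hi'
    rw [Finset.mem_range] at hi hi'
    rw [hgr i (by omega) (by omega), zero_mul]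
  have hu1 : 1 ≤ u := by
    by_contra h
    have h1 : u = 0 := by omega
    rw [h1] at hz' hcu
    simp at hz'
    exact hcu hz'
  refine ⟨u, c u, huN, hcu, ?_⟩
  refine step F _ (c u) w ?_ ?_ ?_
  · exact Submodule.subset_span ⟨⟨0, hu1⟩, by simp⟩
  · intro x hx
    exact Submodule.mul_mem_mul (hc u) hx
  · intro x hx
    induction hx using Submodule.span_induction with
    | mem x hx =>
      obtain ⟨i, rfl⟩ := hx
      have h1 : c u * w * w ^ (i : ℕ) = c u * w ^ ((i : ℕ) + 1) := by ring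
      rw [h1]
      by_cases h2 : (i : ℕ) + 1 < u
      · exact Submodule.mul_mem_mul (hc u) (Submodule.subset_span ⟨⟨(i : ℕ) + 1, h2⟩, rfl⟩)
      · have h3 : (i : ℕ) + 1 = u := by
          have := i.2
          omega
        rw [h3]
        rw [Finset.sum_range_succ] at hz'
        have h4 : c u * w ^ u = - ∑ j ∈ Finset.range u, c j * w ^ j := by
          linear_combination hz'
        rw [h4]
        refine Submodule.neg_mem _ (Submodule.sum_mem _ fun j hj => ?_)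
        exact Submodule.mul_mem_mul (hc j) (Submodule.subset_span ⟨⟨j, Finset.mem_range.1 hj⟩, rfl⟩)
    | zero => rw [mul_zero]; exact Submodule.zero_mem _
    | add x y _ _ hx hy => rw [mul_add]; exact Submodule.add_mem _ hx hy
    | smul a x _ hx =>
      rw [mul_smul_comm]
      exact Submodule.smul_mem _ _ hx

theorem rel_core (x w : L) (u v : ℕ) (hx : Transcendental κ x) (h : Rel κ w x u v) :
    ∃ (u' : ℕ) (l : L), u' ≤ u ∧ l ≠ 0 ∧ ∀ (M : ℕ) (p : L), p ∈ (A1 κ w) ^ M →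
      l ^ M * p ∈ ((A1 κ x) ^ v) ^ M * Submodule.span κ (Set.range fun i : Fin u' => w ^ (i : ℕ)) := by
  classical
  obtain ⟨P, hP, h0, h1, hz⟩ := h
  rw [degreeOf_le_iff] at h0 h1
  refine core ((A1 κ x) ^ v) w u
    (fun i => ∑ d ∈ P.support with d 0 = i, algebraMap κ L (coeff d P) * x ^ (d 1)) ?_ ?_ ?_
  · intro i
    refine Submodule.sum_mem _ fun d hd => ?_
    rw [← Algebra.smul_def]
    refine Submodule.smul_mem _ _ (pow_mem_A1 x _ _ ?_)
    exact h1 d (Finset.mem_filter.1 hd).1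
  · obtain ⟨d0, hd0⟩ := support_nonempty.2 hP
    refine ⟨d0 0, h0 d0 hd0, ?_⟩
    intro hcon
    let p : Polynomial κ := ∑ d ∈ P.support with d 0 = d0 0, Polynomial.monomial (d 1) (coeff d P)
    have hp : Polynomial.aeval x p = 0 := by
      rw [← hcon]
      simp only [p, map_sum, Polynomial.aeval_monomial]
    have hp0 : p = 0 := by
      by_contra hne
      exact hx ⟨p, hne, hp⟩
    have h2 := congrArg (fun q => Polynomial.coeff q (d0 1)) hp0
    simp only [p, Polynomial.finsetSum_coeff, Polynomial.coeff_monomial, Polynomial.coeff_zero] at h2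
    have h3 : ∀ d ∈ ({d ∈ P.support | d 0 = d0 0} : Finset (Fin 2 →₀ ℕ)), d ≠ d0 →
        (if d 1 = d0 1 then coeff d P else 0) = 0 := by
      intro d hd hne
      rw [if_neg]
      intro h3
      apply hne
      ext j
      fin_cases j
      · exact (Finset.mem_filter.1 hd).2
      · exact h3
    have hm0 : d0 ∈ ({d ∈ P.support | d 0 = d0 0} : Finset (Fin 2 →₀ ℕ)) := Finset.mem_filter.2 ⟨hd0, rfl⟩
    rw [Finset.sum_eq_single_of_mem d0 hm0 h3, if_pos rfl] at h2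
    exact (mem_support_iff.1 hd0) h2
  · rw [← hz, aeval_def, eval₂_eq']
    rw [← Finset.sum_fiberwise_of_maps_to (s := P.support) (t := Finset.range (u + 1)) (g := fun d => d 0)
      (fun d hd => Finset.mem_range.2 (Nat.lt_succ_of_le (h0 d hd)))]
    refine Finset.sum_congr rfl fun i _ => ?_
    rw [Finset.sum_mul]
    refine Finset.sum_congr rfl fun d hd => ?_
    rw [Fin.prod_univ_two]
    simp only [Matrix.cons_val_zero, Matrix.cons_val_one]
    rw [(Finset.mem_filter.1 hd).2]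
    ring

theorem G_core (z1 z2 y : L) (s1 s2 t : ℕ) (G : MvPolynomial (Fin 3) κ) (h0 : G.degreeOf 0 ≤ s1)
    (h1 : G.degreeOf 1 ≤ s2) (h2 : G.degreeOf 2 ≤ t) (hz : aeval ![z1, z2, y] G = 0)
    (hc : ∃ c : L, aeval ![z1, z2, c] G ≠ 0) :
    ∃ (u' : ℕ) (l : L), u' ≤ t ∧ l ≠ 0 ∧ ∀ (M : ℕ) (p : L), p ∈ (A1 κ y) ^ M →
      l ^ M * p ∈ ((A1 κ z1) ^ s1 * (A1 κ z2) ^ s2) ^ M *
        Submodule.span κ (Set.range fun i : Fin u' => y ^ (i : ℕ)) := by
  classical
  rw [degreeOf_le_iff] at h0 h1 h2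
  have hexp : ∀ c : L, aeval ![z1, z2, c] G = ∑ i ∈ Finset.range (t + 1),
      (∑ d ∈ G.support with d 2 = i, algebraMap κ L (coeff d G) * (z1 ^ (d 0) * z2 ^ (d 1))) * c ^ i := by
    intro c
    rw [aeval_def, eval₂_eq']
    rw [← Finset.sum_fiberwise_of_maps_to (s := G.support) (t := Finset.range (t + 1)) (g := fun d => d 2)
      (fun d hd => Finset.mem_range.2 (Nat.lt_succ_of_le (h2 d hd)))]
    refine Finset.sum_congr rfl fun i _ => ?_
    rw [Finset.sum_mul]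
    refine Finset.sum_congr rfl fun d hd => ?_
    rw [Fin.prod_univ_three]
    simp only [Matrix.cons_val_zero, Matrix.cons_val_one, Matrix.cons_val_two, Matrix.tail_cons, Matrix.head_cons,
      Matrix.cons_val]
    rw [(Finset.mem_filter.1 hd).2]
    ring
  refine core _ y t
    (fun i => ∑ d ∈ G.support with d 2 = i, algebraMap κ L (coeff d G) * (z1 ^ (d 0) * z2 ^ (d 1))) ?_ ?_ ?_
  · intro i
    refine Submodule.sum_mem _ fun d hd => ?_
    rw [← Algebra.smul_def]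
    refine Submodule.smul_mem _ _ (Submodule.mul_mem_mul (pow_mem_A1 z1 _ _ ?_) (pow_mem_A1 z2 _ _ ?_))
    · exact h0 d (Finset.mem_filter.1 hd).1
    · exact h1 d (Finset.mem_filter.1 hd).1
  · obtain ⟨c, hc⟩ := hc
    by_contra hcon
    push Not at hcon
    apply hc
    rw [hexp c]
    refine Finset.sum_eq_zero fun i hi => ?_
    rw [hcon i (Nat.lt_succ_iff.1 (Finset.mem_range.1 hi)), zero_mul]
  · rw [← hexp y, hz]

theorem pow_le_span (x : L) (N : ℕ) :
    (A1 κ x) ^ N ≤ Submodule.span κ (Set.range fun r : Fin (N + 1) => x ^ (r : ℕ)) := by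
  induction N with
  | zero =>
    rw [pow_zero, Submodule.one_le]
    exact Submodule.subset_span ⟨0, by simp⟩
  | succ N ih =>
    rw [pow_succ]
    refine (mul_le_mul' ih le_rfl).trans ?_
    rw [Submodule.mul_le]
    intro m hm q hq
    obtain ⟨a, b, rfl⟩ := Submodule.mem_span_pair.1 hq
    have h1 : m * (a • 1 + b • x) = a • m + b • (m * x) := by
      simp only [Algebra.smul_def]
      ring
    rw [h1]
    refine Submodule.add_mem _ (Submodule.smul_mem _ _ ?_) (Submodule.smul_mem _ _ ?_)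
    · refine Submodule.span_mono ?_ hm
      rintro _ ⟨r, rfl⟩
      exact ⟨r.castSucc, rfl⟩
    · induction hm using Submodule.span_induction with
      | mem y hy =>
        obtain ⟨r, rfl⟩ := hy
        exact Submodule.subset_span ⟨r.succ, by simp [pow_succ]⟩
      | zero => rw [zero_mul]; exact Submodule.zero_mem _
      | add y z _ _ hy hz =>
        rw [add_mul]
        exact Submodule.add_mem _ (hy (by simp only [Algebra.smul_def]; ring)) (hz (by simp only [Algebra.smul_def]; ring))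
      | smul c y _ hy =>
        rw [smul_mul_assoc]
        exact Submodule.smul_mem _ _ (hy (by simp only [Algebra.smul_def]; ring))

theorem alg {R : Type} [CommSemiring R] (X W1 W2 W3 : R) (v1 v2 e1 e2 B : ℕ) :
    ((X ^ v1) ^ e1 * W1) * ((X ^ v2) ^ e2 * W2) * W3 * X ^ B =
      X ^ (v1 * e1 + v2 * e2 + B) * (W1 * (W2 * W3)) := by ring

theorem mul_le_span {ι1 ι2 : Type} (S1 S2 : Submodule κ L) (f1 : ι1 → L) (f2 : ι2 → L)
    (h1 : S1 ≤ Submodule.span κ (Set.range f1)) (h2 : S2 ≤ Submodule.span κ (Set.range f2)) :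
    S1 * S2 ≤ Submodule.span κ (Set.range fun p : ι1 × ι2 => f1 p.1 * f2 p.2) := by
  refine (mul_le_mul' h1 h2).trans ?_
  rw [Submodule.span_mul_span]
  refine Submodule.span_mono ?_
  rintro _ ⟨_, ⟨i, rfl⟩, _, ⟨j, rfl⟩, rfl⟩
  exact ⟨(i, j), rfl⟩

theorem fin_rel {ι : Type} [Fintype ι] (y x D : L) (hD0 : D ≠ 0) (A B : ℕ) (φ : ι → L)
    (hcard : Fintype.card ι < (A + 1) * (B + 1))
    (hmem : ∀ a b : ℕ, a ≤ A → b ≤ B → D * (y ^ a * x ^ b) ∈ Submodule.span κ (Set.range φ)) :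
    Rel κ y x A B := by
  classical
  have hnli : ¬ LinearIndependent κ (fun p : Fin (A + 1) × Fin (B + 1) => D * (y ^ (p.1 : ℕ) * x ^ (p.2 : ℕ))) := by
    intro hli
    have h1 := linearIndependent_le_span' _ hli (Set.range φ) (by
      rintro _ ⟨p, rfl⟩
      exact hmem _ _ (Nat.lt_succ_iff.1 p.1.2) (Nat.lt_succ_iff.1 p.2.2))
    rw [Cardinal.mk_fintype] at h1
    have h2 : Fintype.card (Fin (A + 1) × Fin (B + 1)) ≤ Fintype.card (Set.range φ) := by exact_mod_cast h1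
    have h3 : Fintype.card (Set.range φ) ≤ Fintype.card ι :=
      Fintype.card_le_of_surjective (Set.rangeFactorization φ) Set.rangeFactorization_surjective
    have h4 := h2.trans h3
    simp only [Fintype.card_prod, Fintype.card_fin] at h4
    omega
  obtain ⟨g, hg, ⟨p0, hp0⟩⟩ := Fintype.not_linearIndependent_iff.1 hnli
  obtain ⟨ee, hee⟩ : ∃ ee : ℕ → ℕ → (Fin 2 →₀ ℕ), ∀ a b, ee a b = Finsupp.single 0 a + Finsupp.single 1 b :=
    ⟨_, fun _ _ => rfl⟩
  have ee0 : ∀ a b, ee a b 0 = a := by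
    intro a b
    simp [hee]
  have ee1 : ∀ a b, ee a b 1 = b := by
    intro a b
    simp [hee]
  obtain ⟨P, hPdef⟩ : ∃ P : MvPolynomial (Fin 2) κ, P = ∑ p : Fin (A + 1) × Fin (B + 1), monomial (ee p.1 p.2) (g p) :=
    ⟨_, rfl⟩
  have hcf : ∀ m, coeff m P = ∑ p : Fin (A + 1) × Fin (B + 1), if ee p.1 p.2 = m then g p else 0 := by
    intro m
    rw [hPdef, coeff_sum]
    exact Finset.sum_congr rfl fun p _ => coeff_monomial _ _ _
  have hco : ∀ m, coeff m P ≠ 0 → ∃ p : Fin (A + 1) × Fin (B + 1), m = ee p.1 p.2 := by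
    intro m hm
    rw [hcf] at hm
    obtain ⟨p, -, hp⟩ := Finset.exists_ne_zero_of_sum_ne_zero hm
    by_contra hcon
    push Not at hcon
    exact hp (if_neg fun h => hcon p h.symm)
  refine ⟨P, ?_, ?_, ?_, ?_⟩
  · intro hP
    have h1 := hcf (ee p0.1 p0.2)
    rw [hP, coeff_zero, Finset.sum_eq_single p0] at h1
    · rw [if_pos rfl] at h1
      exact hp0 h1.symm
    · intro p _ hne
      rw [if_neg]
      intro h2
      apply hne
      have e0 := congrArg (fun m : Fin 2 →₀ ℕ => m 0) h2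
      have e1 := congrArg (fun m : Fin 2 →₀ ℕ => m 1) h2
      simp only [ee0, ee1] at e0 e1
      exact Prod.ext (Fin.ext e0) (Fin.ext e1)
    · intro h
      exact absurd (Finset.mem_univ _) h
  · rw [degreeOf_le_iff]
    intro m hm
    obtain ⟨p, rfl⟩ := hco m (mem_support_iff.1 hm)
    rw [ee0]
    exact Nat.lt_succ_iff.1 p.1.2
  · rw [degreeOf_le_iff]
    intro m hm
    obtain ⟨p, rfl⟩ := hco m (mem_support_iff.1 hm)
    rw [ee1]
    exact Nat.lt_succ_iff.1 p.2.2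
  · have h1 : aeval ![y, x] P = ∑ p : Fin (A + 1) × Fin (B + 1), g p • (y ^ (p.1 : ℕ) * x ^ (p.2 : ℕ)) := by
      rw [hPdef, map_sum]
      refine Finset.sum_congr rfl fun p _ => ?_
      rw [aeval_monomial, Algebra.smul_def, Finsupp.prod_fintype _ _ (fun i => pow_zero _), Fin.prod_univ_two, ee0, ee1]
      simp
    have h2 : D * aeval ![y, x] P = 0 := by
      rw [h1, Finset.mul_sum, ← hg]
      refine Finset.sum_congr rfl fun p _ => ?_
      rw [mul_smul_comm]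
    exact (mul_eq_zero.1 h2).resolve_left hD0

theorem count (u1 u2 t a1 a2 a3 v1 v2 s1 s2 A B N : ℕ) (h1 : a1 ≤ u1) (h2 : a2 ≤ u2) (h3 : a3 ≤ t)
    (hA : A = 2 * (u1 * u2 * t)) (hB : B = A * (s1 * v1 + s2 * v2))
    (hN : N = v1 * (s1 * A) + v2 * (s2 * A) + B) :
    (N + 1) * (a1 * (a2 * a3)) < (A + 1) * (B + 1) := by
  have h5 : a1 * (a2 * a3) ≤ u1 * u2 * t := by
    rw [mul_assoc]
    exact Nat.mul_le_mul h1 (Nat.mul_le_mul h2 h3)
  have h6 : (N + 1) * (a1 * (a2 * a3)) ≤ (N + 1) * (u1 * u2 * t) := Nat.mul_le_mul_left _ h5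
  have h7 : N = 2 * B := by
    rw [hN, hB]
    ring
  refine lt_of_le_of_lt h6 ?_
  obtain ⟨n, hn⟩ : ∃ n, n = u1 * u2 * t := ⟨_, rfl⟩
  rw [← hn] at hA ⊢
  rw [h7, hA]
  have h8 : (2 * n + 1) * (B + 1) = (2 * B + 1) * n + (n + B + 1) := by ring
  rw [h8]
  omega

theorem memb (x z1 z2 y l1 l2 l3 : L) (s1 s2 v1 v2 A B : ℕ) (W1 W2 W3 : Submodule κ L)
    (H1 : ∀ (M : ℕ) (p : L), p ∈ (A1 κ z1) ^ M → l1 ^ M * p ∈ ((A1 κ x) ^ v1) ^ M * W1)
    (H2 : ∀ (M : ℕ) (p : L), p ∈ (A1 κ z2) ^ M → l2 ^ M * p ∈ ((A1 κ x) ^ v2) ^ M * W2)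
    (H3 : ∀ (M : ℕ) (p : L), p ∈ (A1 κ y) ^ M → l3 ^ M * p ∈ ((A1 κ z1) ^ s1 * (A1 κ z2) ^ s2) ^ M * W3)
    (a b : ℕ) (ha : a ≤ A) (hb : b ≤ B) :
    l1 ^ (s1 * A) * l2 ^ (s2 * A) * l3 ^ A * (y ^ a * x ^ b) ∈
      (A1 κ x) ^ (v1 * (s1 * A) + v2 * (s2 * A) + B) * (W1 * (W2 * W3)) := by
  have K1 : ∀ u ∈ ((A1 κ z1) ^ s1 * (A1 κ z2) ^ s2) ^ A, l1 ^ (s1 * A) * l2 ^ (s2 * A) * u ∈
      (((A1 κ x) ^ v1) ^ (s1 * A) * W1) * (((A1 κ x) ^ v2) ^ (s2 * A) * W2) := by
    intro u hu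
    rw [mul_pow, ← pow_mul, ← pow_mul] at hu
    refine Submodule.mul_induction_on hu ?_ ?_
    · intro p hp q hq
      have h1 : l1 ^ (s1 * A) * l2 ^ (s2 * A) * (p * q) = (l1 ^ (s1 * A) * p) * (l2 ^ (s2 * A) * q) :=
        mul_mul_mul_comm _ _ _ _
      rw [h1]
      exact Submodule.mul_mem_mul (H1 _ p hp) (H2 _ q hq)
    · intro p q hp hq
      rw [mul_add]
      exact Submodule.add_mem _ hp hq
  have K2 : ∀ e ∈ ((A1 κ z1) ^ s1 * (A1 κ z2) ^ s2) ^ A * W3, l1 ^ (s1 * A) * l2 ^ (s2 * A) * e ∈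
      (((A1 κ x) ^ v1) ^ (s1 * A) * W1) * (((A1 κ x) ^ v2) ^ (s2 * A) * W2) * W3 := by
    intro e he
    refine Submodule.mul_induction_on he ?_ ?_
    · intro u hu w hw
      have h1 : l1 ^ (s1 * A) * l2 ^ (s2 * A) * (u * w) = l1 ^ (s1 * A) * l2 ^ (s2 * A) * u * w :=
        (mul_assoc _ _ _).symm
      rw [h1]
      exact Submodule.mul_mem_mul (K1 u hu) hw
    · intro p q hp hq
      rw [mul_add]
      exact Submodule.add_mem _ hp hq
  have h1 := K2 _ (H3 A (y ^ a) (pow_mem_A1 y a A ha))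
  have h2 := Submodule.mul_mem_mul h1 (pow_mem_A1 (κ := κ) x b B hb)
  rw [alg] at h2
  have h4 : l1 ^ (s1 * A) * l2 ^ (s2 * A) * l3 ^ A * (y ^ a * x ^ b) =
      l1 ^ (s1 * A) * l2 ^ (s2 * A) * (l3 ^ A * y ^ a) * x ^ b := by
    simp only [mul_assoc]
  rw [h4]
  exact h2

theorem t : S_ELM := by
  intro κ L _ _ _ x z1 z2 y u1 v1 u2 v2 s1 s2 t G hx hr1 hr2 hG0 hG1 hG2 hGz hGc
  obtain ⟨a1, l1, ha1, hl1, H1⟩ := rel_core x z1 u1 v1 hx hr1
  obtain ⟨a2, l2, ha2, hl2, H2⟩ := rel_core x z2 u2 v2 hx hr2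
  obtain ⟨a3, l3, ha3, hl3, H3⟩ := G_core z1 z2 y s1 s2 t G hG0 hG1 hG2 hGz hGc
  obtain ⟨A, hA⟩ : ∃ A, A = 2 * (u1 * u2 * t) := ⟨_, rfl⟩
  obtain ⟨B, hB⟩ : ∃ B, B = A * (s1 * v1 + s2 * v2) := ⟨_, rfl⟩
  rw [← hA, ← hB]
  have hD0 : l1 ^ (s1 * A) * l2 ^ (s2 * A) * l3 ^ A ≠ 0 :=
    mul_ne_zero (mul_ne_zero (pow_ne_zero _ hl1) (pow_ne_zero _ hl2)) (pow_ne_zero _ hl3)
  have hT := mul_le_span _ _ _ _ (pow_le_span (κ := κ) x (v1 * (s1 * A) + v2 * (s2 * A) + B))
      (mul_le_span _ _ _ _ (le_refl (Submodule.span κ (Set.range fun i : Fin a1 => z1 ^ (i : ℕ))))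
        (mul_le_span _ _ _ _ (le_refl (Submodule.span κ (Set.range fun i : Fin a2 => z2 ^ (i : ℕ))))
          (le_refl (Submodule.span κ (Set.range fun i : Fin a3 => y ^ (i : ℕ))))))
  refine fin_rel y x _ hD0 A B _ ?_ (fun a b ha hb => hT
    (memb x z1 z2 y l1 l2 l3 s1 s2 v1 v2 A B _ _ _ H1 H2 H3 a b ha hb))
  simp only [Fintype.card_prod, Fintype.card_fin]
  exact count u1 u2 t a1 a2 a3 v1 v2 s1 s2 A B _ ha1 ha2 ha3 hA hB rfl

end Pool.Agent.Helper73.T3.ELM
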